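import Pool.Agent.H84.SL.Targets

/-!
# MP_70ba79_ag, board slg_modules: GZ2
-/

set_option autoImplicit false

namespace Pool.Agent.H88.SLG.GZ2

open SC Pool.Agent.H27.LV Pool.Agent.H84.SM Pool.Agent.H84.SL

section

variable {k K : Type} [Field k] [Field K] [Algebra k K]

/-- the divisor of one point -/
noncomputable def one (P v : DV k K) : ℤ := by
  classical
  exact if v = P then 1 else 0

lemma one_self (P : DV k K) : one P P = 1 := by simp [one]

lemma one_ne {P v : DV k K} (h : v ≠ P) : one P v = 0 := by simp [one, h]

lemma one_fin (P : DV k K) : {v : DV k K | one P v ≠ 0}.Finite := by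
  refine (Set.finite_singleton P).subset ?_
  intro v hv
  by_contra h
  exact hv (one_ne h)

end

lemma lower (hDRP : T_DRP) (k K : Type) [Field k] [IsAlgClosed k] [CharZero k] [Field K]
    [Algebra k K] [Algebra.EssFiniteType k K] (htr : Algebra.trdeg k K = 1) (P : DV k K) :
    ∀ (n : ℕ) (E : DV k K → ℤ), {v | E v ≠ 0}.Finite → (∀ v, one P v ≤ E v) →
      ∑ᶠ v, (E v - one P v) = n →
      Module.finrank k (LE k E) ≤ Module.finrank k (LE k (one P)) + n := by
  intro n
  induction n with
  | zero =>
    intro E hE h1 hs
    have hfin : (Function.support fun v => E v - one P v).Finite := by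
      refine (hE.union (one_fin P)).subset ?_
      intro v hv
      simp only [Function.mem_support] at hv
      by_contra hcon
      simp only [Set.mem_union, Set.mem_ofPred_eq, not_or, not_not] at hcon
      rw [hcon.1, hcon.2] at hv
      exact hv (by norm_num)
    have h2 : E = one P := by
      funext v
      by_contra hne
      have hpos : 0 < E v - one P v := by
        have := h1 v
        have h3 : E v ≠ one P v := hne
        omega
      have h4 : 0 < ∑ᶠ v, (E v - one P v) := by
        rw [finsum_eq_sum _ hfin]
        refine Finset.sum_pos' (fun w _ => by have := h1 w; omega) ⟨v, ?_, hpos⟩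
        rw [Set.Finite.mem_toFinset, Function.mem_support]
        omega
      rw [hs] at h4
      simp at h4
    rw [h2]
    simp
  | succ n ih =>
    intro E hE h1 hs
    have hfin : (Function.support fun v => E v - one P v).Finite := by
      refine (hE.union (one_fin P)).subset ?_
      intro v hv
      simp only [Function.mem_support] at hv
      by_contra hcon
      simp only [Set.mem_union, Set.mem_ofPred_eq, not_or, not_not] at hcon
      rw [hcon.1, hcon.2] at hv
      exact hv (by norm_num)
    obtain ⟨v, hv⟩ : ∃ v, one P v < E v := by
      by_contra hcon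
      push Not at hcon
      have h2 : ∀ v, E v - one P v = 0 := fun v => by
        have := hcon v
        have := h1 v
        omega
      have h3 : ∑ᶠ v, (E v - one P v) = 0 := by
        simp [h2]
      rw [h3] at hs
      have : (0 : ℤ) = ((n + 1 : ℕ) : ℤ) := hs
      omega
    let E' : DV k K → ℤ := fun w => E w - one v w
    have hE' : {w | E' w ≠ 0}.Finite := by
      refine (hE.union (one_fin v)).subset ?_
      intro w hw
      by_contra hcon
      simp only [Set.mem_union, Set.mem_ofPred_eq, not_or, not_not] at hcon
      apply hw
      change E w - one v w = 0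
      rw [hcon.1, hcon.2]
      norm_num
    have h1' : ∀ w, one P w ≤ E' w := by
      intro w
      change one P w ≤ E w - one v w
      by_cases hw : w = v
      · rw [hw, one_self]
        omega
      · rw [one_ne hw]
        have := h1 w
        omega
    have hs' : ∑ᶠ w, (E' w - one P w) = n := by
      have h2 : ∀ w, E' w - one P w = (E w - one P w) - one v w := fun w => by
        change E w - one v w - one P w = _
        ring
      have h3 : ∑ᶠ w, one v w = 1 := by
        rw [finsum_eq_single _ v (fun w hw => one_ne hw), one_self]
      rw [finsum_congr h2, finsum_sub_distrib hfin ?_, hs, h3]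
      · push_cast
        ring
      · exact one_fin v
    have h5 := (hDRP k K htr E hE).2 v E' (by
      change E v - one v v = _
      rw [one_self]) (fun w hw => by
      change E w - one v w = _
      rw [one_ne hw, sub_zero])
    have h6 := ih E' hE' h1' hs'
    omega

theorem pf_GZ2 (hGZ1 : T_GZ1) (hDRP : T_DRP) : T_GZ2 := by
  intro k K _ _ _ _ _ _ htr D hD hcan P
  have hu0 := P.unif_ne_zero
  have hu1 := P.ord_unif
  obtain ⟨t, ht⟩ : ∃ t, t = P.unif⁻¹ := ⟨_, rfl⟩
  have ht0 : t ≠ 0 := by rw [ht]; exact inv_ne_zero hu0
  have ht1 : P.ord t = -1 := by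
    have h := P.ord_mul' hu0 ht0
    rw [ht, mul_inv_cancel₀ hu0, P.ord_one, hu1, ← ht] at h
    omega
  have htt : Transcendental k t := by
    intro halg
    have hint : IsIntegral k t := halg.isIntegral
    have h1 : (minpoly k t).degree = 1 := IsAlgClosed.degree_eq_one_of_irreducible k
      (minpoly.irreducible hint)
    obtain ⟨c, hc⟩ := minpoly.mem_range_of_degree_eq_one k t h1
    rw [← hc, P.ord_base] at ht1
    omega
  have h1 := hGZ1 k K htr D hD hcan t htt
  have hpf : {v : DV k K | pol k t v ≠ 0}.Finite := by
    refine (pfm k K htr t).1.subset ?_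
    intro v hv hv0
    apply hv
    unfold pol
    rw [hv0]
    simp
  have hP : ∀ v, one P v ≤ pol k t v := by
    intro v
    by_cases hv : v = P
    · rw [hv, one_self]
      unfold pol
      rw [ht1]
      norm_num
    · rw [one_ne hv]
      exact le_max_left _ _
  have hsum : ∑ᶠ v : DV k K, (pol k t v - one P v) = (∑ᶠ v : DV k K, pol k t v) - 1 := by
    have h3 : ∑ᶠ w, one P w = 1 := by
      rw [finsum_eq_single _ P (fun w hw => one_ne hw), one_self]
    rw [finsum_sub_distrib hpf (one_fin P), h3]
  have hnn : 0 ≤ ∑ᶠ v : DV k K, (pol k t v - one P v) :=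
    finsum_nonneg fun v => by have := hP v; omega
  obtain ⟨n, hn⟩ := Int.eq_ofNat_of_zero_le hnn
  have h2 := lower hDRP k K htr P n (pol k t) hpf hP hn
  have h3 : 2 ≤ Module.finrank k (LE k (one P)) := by
    rw [hsum] at hn
    omega
  -- a nonconstant function
  obtain ⟨f, hf, hfc⟩ : ∃ f ∈ LE k (one P), f ∉ Submodule.span k {(1 : K)} := by
    by_contra hcon
    push Not at hcon
    have hle : LE k (one P) ≤ Submodule.span k {(1 : K)} := fun f hf => hcon f hf
    have h4 : Module.finrank k (LE k (one P)) ≤ Module.finrank k (Submodule.span k {(1 : K)}) :=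
      Submodule.finrank_mono hle
    have h5 : Module.finrank k (Submodule.span k {(1 : K)}) ≤ 1 := by
      have := finrank_span_le_card (R := k) ({(1 : K)} : Set K)
      simpa using this
    omega
  have hf' : ∀ v : DV k K, ge v (-(one P v)) f := hf
  refine ⟨f, ?_, fun v hv => ?_⟩
  · have h4 := hf' P
    rw [one_self] at h4
    by_contra hne
    have hf0 : f ≠ 0 := by
      intro h
      apply hfc
      rw [h]
      exact Submodule.zero_mem _
    have h5 : 0 ≤ P.ord f := by
      have := h4.resolve_left hf0
      omega
    obtain ⟨c, hc⟩ := (rat k K htr P).2 f h5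
    apply hfc
    rcases hc with hc | hc
    · have : f = c • (1 : K) := by
        rw [Algebra.smul_def, mul_one]
        exact sub_eq_zero.1 hc
      rw [this]
      exact Submodule.smul_mem _ _ (Submodule.mem_span_singleton_self _)
    · exfalso
      have hall : ∀ v : DV k K, 0 ≤ v.ord (f - algebraMap k K c) := by
        intro v
        have h6 : ge v 0 f := by
          by_cases hv : v = P
          · rw [hv]; exact Or.inr h5
          · have := hf' v
            rwa [one_ne hv, neg_zero] at this
        have h7 := h6.sub (ge_const v c)
        rcases h7 with h7 | h7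
        · rw [h7, v.ord_zero]
        · exact h7
      obtain ⟨hfin, hs⟩ := pfm k K htr (f - algebraMap k K c)
      have h8 : 0 < ∑ᶠ v : DV k K, v.ord (f - algebraMap k K c) := by
        rw [finsum_eq_sum _ (show (Function.support fun v : DV k K =>
          v.ord (f - algebraMap k K c)).Finite from hfin)]
        refine Finset.sum_pos' (fun w _ => hall w) ⟨P, ?_, by omega⟩
        rw [Set.Finite.mem_toFinset, Function.mem_support]
        omega
      omega
  · have h4 := hf' v
    rwa [one_ne hv, neg_zero] at h4

end Pool.Agent.H88.SLG.GZ2
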